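import Pool.Agent.Lib.MP_5cebc8_co.ThmC

set_option autoImplicit false

open Finset Pool.Agent.Lib.MP_5cebc8_co

namespace Pool.Agent.Results.MP_5cebc8_co.FewInner

/-- A balanced tree with `n` vertices in each class and `k` vertices of degree other than one
decomposes `K_{2n-1,2n-1}` as soon as `10000 (k + 1) ≤ n`. -/
theorem result :
    ∀ (n : ℕ) (V : Type) [Fintype V] (T : SimpleGraph V), T.IsTree →
    (∃ c : V → Bool, (∀ u v, T.Adj u v → c u ≠ c v) ∧
        Fintype.card {v // c v = true} = n ∧ Fintype.card {v // c v = false} = n) →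
    10000 * (Set.ncard {v | (T.neighborSet v).ncard ≠ 1} + 1) ≤ n →
    ∃ f : Fin (2 * n - 1) → V → (Fin (2 * n - 1) ⊕ Fin (2 * n - 1)),
      (∀ i, Function.Injective (f i)) ∧
      (∀ i u v, T.Adj u v →
        (completeBipartiteGraph (Fin (2 * n - 1)) (Fin (2 * n - 1))).Adj (f i u) (f i v)) ∧
      (∀ a b : Fin (2 * n - 1), ∃! i : Fin (2 * n - 1),
        ∃ u v, T.Adj u v ∧ f i u = Sum.inl a ∧ f i v = Sum.inr b) := by
  classical
  intro n V _ T hT ⟨c, hc, h1, h0⟩ hk
  rw [Fintype.card_subtype] at h1 h0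
  let dl : V → ℕ := fun v => (univ.filter (fun x => T.Adj v x ∧ (T.neighborSet x).ncard = 1)).card
  obtain ⟨r, hr, hmax⟩ := exists_max_image (univ.filter (fun v => c v = true)) dl
    (card_pos.1 (by omega))
  obtain ⟨R, e1, e2, e3⟩ := exists_RT T hT c hc r
  subst e1 e2
  have hpar : ∀ v, v ≠ R.root → T.Adj v (R.par v) := fun v hv => (e3 _ _).2 (Or.inl ⟨hv, rfl⟩)
  have hleaf : ∀ v, v ≠ R.root → (¬ R.Inner v ↔ (T.neighborSet v).ncard = 1) := by
    intro v hv
    constructor
    · intro h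
      refine Set.ncard_eq_one.2 ⟨R.par v, Set.eq_singleton_iff_unique_mem.2 ⟨hpar v hv, ?_⟩⟩
      intro x hx
      rcases (e3 v x).1 hx with a | a
      · exact a.2.symm
      · exact absurd ⟨x, a.1, a.2⟩ h
    · rintro h ⟨x, hx, hp⟩
      obtain ⟨y, hy⟩ := Set.ncard_eq_one.1 h
      have a1 : R.par v ∈ T.neighborSet v := hpar v hv
      have a2 : x ∈ T.neighborSet v := (hp ▸ hpar x hx : T.Adj x v).symm
      rw [hy, Set.mem_singleton_iff] at a1 a2
      have d1 := R.dep_par v hv
      have d2 := R.dep_par x hx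
      rw [hp] at d2
      rw [a1, ← a2] at d1
      omega
  have hlc : ∀ v, R.sd v = R.sd R.root → R.lc v = dl v := by
    intro v hv
    unfold RT.lc
    congr 1
    ext x
    simp only [mem_filter, mem_univ, true_and]
    constructor
    · rintro ⟨a1, a2, a3⟩
      exact ⟨(a2 ▸ hpar x a1 : T.Adj x v).symm, (hleaf x a1).1 a3⟩
    · rintro ⟨a1, a2⟩
      have hx : x ≠ R.root := fun h => hc _ _ a1 (by rw [h, hv])
      have a3 := (hleaf x hx).2 a2
      refine ⟨hx, ?_, a3⟩
      rcases (e3 v x).1 a1 with a | a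
      · exact absurd ⟨v, a.1, a.2⟩ a3
      · exact a.2
  have hin : (univ.filter (fun v => R.Inner v)).card ≤
      Set.ncard {v | (T.neighborSet v).ncard ≠ 1} + 1 := by
    rw [Set.ncard_eq_toFinset_card']
    refine le_trans (card_le_card fun v hv => ?_) (card_insert_le R.root _)
    by_cases h : v = R.root
    · exact mem_insert.2 (Or.inl h)
    · refine mem_insert_of_mem (Set.mem_toFinset.2 fun a => ?_)
      exact (hleaf v h).2 a (mem_filter.1 hv).2
  obtain ⟨ψ, hψ⟩ := thmC n V R (by convert h1) (by convert h0)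
    (le_trans (Nat.mul_le_mul_left _ (by convert hin)) hk) (fun v hv => by
      rw [hlc v hv, hlc _ rfl]
      exact hmax v (mem_filter.2 ⟨mem_univ _, hv.trans (mem_filter.1 hr).2⟩))
  have : NeZero (2 * n - 1) := ⟨by omega⟩
  refine decomp_of_good T R e3 (2 * n - 1) ?_ ψ hψ
  have := card_filter_add_card_filter_not (s := (univ : Finset V)) (fun v => R.sd v = true)
  simp only [Bool.not_eq_true] at this
  rw [← card_univ]
  omega

end Pool.Agent.Results.MP_5cebc8_co.FewInner
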