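import Pool.Agent.Lib.MP_5cebc8_co.Main

set_option autoImplicit false

open Finset Pool.Agent.Lib.MP_5cebc8_co

namespace Pool.Agent.Results.MP_5cebc8_co.LargeN

/-- For all sufficiently large `n`, every balanced tree with `n` vertices in each class
decomposes `K_{2n-1,2n-1}`. -/
theorem result : ∃ n0 : ℕ, ∀ (n : ℕ), n0 ≤ n →
    ∀ (V : Type) [Fintype V] (T : SimpleGraph V), T.IsTree →
    (∃ c : V → Bool, (∀ u v, T.Adj u v → c u ≠ c v) ∧
        Fintype.card {v // c v = true} = n ∧ Fintype.card {v // c v = false} = n) →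
    ∃ f : Fin (2 * n - 1) → V → (Fin (2 * n - 1) ⊕ Fin (2 * n - 1)),
      (∀ i, Function.Injective (f i)) ∧
      (∀ i u v, T.Adj u v →
        (completeBipartiteGraph (Fin (2 * n - 1)) (Fin (2 * n - 1))).Adj (f i u) (f i v)) ∧
      (∀ a b : Fin (2 * n - 1), ∃! i : Fin (2 * n - 1),
        ∃ u v, T.Adj u v ∧ f i u = Sum.inl a ∧ f i v = Sum.inr b) := by
  classical
  obtain ⟨n0, H⟩ := large_rooted
  refine ⟨n0 + 1, fun n hn V _ T hT ⟨c, hc, h1, h0⟩ => ?_⟩
  rw [Fintype.card_subtype] at h1 h0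
  obtain ⟨R, e2, e3, e4⟩ := exists_RT_max T hT c hc (by
    obtain ⟨v, hv⟩ := card_pos.1 (show 0 < (univ.filter (fun v => c v = true)).card by omega)
    exact ⟨v, (mem_filter.1 hv).2⟩)
  subst e2
  obtain ⟨ψ, hψ⟩ := H n (by omega) V R (fun s => by cases s <;> assumption) e4
  have : NeZero (2 * n - 1) := ⟨by omega⟩
  refine decomp_of_good T R e3 (2 * n - 1) ?_ ψ hψ
  have := card_filter_add_card_filter_not (s := (univ : Finset V)) (fun v => R.sd v = true)
  simp only [Bool.not_eq_true] at this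
  rw [← card_univ]
  omega

end Pool.Agent.Results.MP_5cebc8_co.LargeN
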